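import Pool.Agent.X178.LD.Low2
import Pool.Agent.X178.LD.Up2
import Pool.Agent.X178.LD.Gen2
import Pool.Agent.X178.LD.UpGen

/-!
# The fractional local t-dimension of a finite chain

* `t = 2`: for `2 ^ k ≤ n < 2 ^ (k + 1)`, `n ≥ 2`, it is exactly `k + (n - 2 ^ k) / ⌊n / 2⌋`.
* Every `t ≥ 2`: it lies between `log_t n` and `⌈log_t n⌉`; in particular it is exactly `k` for
  `n = t ^ k`, and no chain beats the logarithm.
-/

namespace Pool.Agent.Results.MP_5b7fe5_co.ChainValues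

open Pool.Agent.X178.LD

theorem result :
    (∀ n k : ℕ, 2 ≤ n → 2 ^ k ≤ n → n < 2 ^ (k + 1) →
      IsLdim n 2 ((k : ℝ) + ((n : ℝ) - 2 ^ k) / ((n / 2 : ℕ) : ℝ))) ∧
    (∀ n t : ℕ, 1 ≤ n → 2 ≤ t →
      (∀ (w : PF n t → ℝ) (ρ : ℝ), Realiser n t w → (∀ x, load w x ≤ ρ) →
        Real.log n / Real.log t ≤ ρ) ∧
      ∃ w : PF n t → ℝ, Realiser n t w ∧ ∀ x, load w x ≤ (Nat.clog t n : ℝ)) ∧
    (∀ t k : ℕ, 2 ≤ t → IsLdim (t ^ k) t (k : ℝ)) := by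
  have hlow : ∀ n t : ℕ, 1 ≤ n → 2 ≤ t → ∀ (w : PF n t → ℝ) (ρ : ℝ), Realiser n t w →
      (∀ x, load w x ≤ ρ) → Real.log n / Real.log t ≤ ρ := by
    intro n t hn ht w ρ hw hρ
    have h1 := low_gen n t hn (by omega) w hw ρ hρ
    have h2 : 0 < Real.log t := Real.log_pos (by exact_mod_cast ht)
    rwa [div_le_iff₀ h2]
  refine ⟨?_, ?_, ?_⟩
  · intro n k hn h1 h2
    refine ⟨up2 n k hn h1 h2, ?_⟩
    rintro ρ ⟨w, hw, hρ⟩
    exact low2 n k hn w hw ρ hρ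
  · intro n t hn ht
    exact ⟨hlow n t hn ht, up_gen n t _ (by omega) (Nat.le_pow_clog ht n)⟩
  · intro t k ht
    refine ⟨up_gen (t ^ k) t k (by omega) le_rfl, ?_⟩
    rintro ρ ⟨w, hw, hρ⟩
    have h1 := hlow (t ^ k) t (Nat.one_le_pow _ _ (by omega)) ht w ρ hw hρ
    have h2 : 0 < Real.log t := Real.log_pos (by exact_mod_cast ht)
    rw [Nat.cast_pow, Real.log_pow, mul_div_assoc, div_self h2.ne', mul_one] at h1
    exact h1

end Pool.Agent.Results.MP_5b7fe5_co.ChainValues
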